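import Pool.Agent.Helper50_PN.Stmts
import Pool.Agent.Helper40_PGL.GAlg

/-! Module STP of squad PN: a product step preserves good elements. -/

set_option autoImplicit false

universe u

open MvPolynomial PGH PGL

namespace Pool.Agent.PN.H19

/-- STP -/
theorem stp (hgoo : GooStmt.{u}) : StpStmt.{u} := by
  obtain ⟨N₀, Φ, hΦ, hmain⟩ := hgoo
  refine ⟨N₀, Φ, hΦ, ?_⟩
  intro k M _ _ _ _ _ F₀ F F' hstep hF a ha
  obtain ⟨n, N, R, x, a', e, m, b, z, hN, hx, haK, hgen, hval, hram, halg⟩ := hstep.step
  choose c hc using haK
  have hind : AlgebraicIndependent k x := by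
    rw [algebraicIndependent_iff]
    intro p hp
    have h1 : MvPolynomial.map (algebraMap k M).rangeRestrictField p = 0 := by
      refine hx _ ?_
      rw [eval₂_map, ← hp, aeval_def]
      rfl
    exact MvPolynomial.map_injective _ (algebraMap k M).rangeRestrictField.injective
      (by rw [h1, map_zero])
  have hgood := hmain F₀ n N R x c e m b z hN hind
    (by
      intro h0
      apply hgen
      have h2 : (fun p : Fin n × Fin N => a' p.1 p.2) =
          fun p : Fin n × Fin N => algebraMap k M (c p.1 p.2) := by
        funext p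
        exact (hc p.1 p.2).symm
      have h1 : algebraMap k M (aeval (fun p : Fin n × Fin N => c p.1 p.2) (Φ n N)) =
          aeval (fun p : Fin n × Fin N => a' p.1 p.2) (Φ n N) := by
        rw [h2, aeval_def, aeval_def, eval₂_eq', eval₂_eq', map_sum]
        refine Finset.sum_congr rfl fun s _ => ?_
        rw [map_mul, map_prod]
        congr 1
        · simp
        · refine Finset.prod_congr rfl fun p _ => ?_
          rw [map_pow]
      rw [← h1, h0, map_zero])
    (fun r => by
      obtain ⟨h1, h2, h3⟩ := hval r
      refine ⟨hF _ h1, h2, ?_⟩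
      rw [← h3]
      refine Finset.prod_congr rfl fun l _ => Finset.prod_congr rfl fun j _ => ?_
      rw [hc])
    hram
  refine (gAlg k M F₀).2.2 _ ?_ a (halg a ha)
  rintro s (hs | ⟨i, rfl⟩)
  · exact hF s hs
  · exact hgood i

end Pool.Agent.PN.H19
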